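import Mathlib

set_option autoImplicit false

open Set Filter Topology TopologicalSpace Metric

namespace Pool.Agent.H.MP_53bf97_gt

variable {X : Type} [MetricSpace X] [CompactSpace X]

omit [CompactSpace X] in
lemma closed : IsClosed {A : NonemptyCompacts X | IsConnected (A : Set X)} := by
  refine isOpen_compl_iff.1 (isOpen_iff_forall_mem_open.2 fun A hA => ?_)
  have h : ¬ IsPreconnected (A : Set X) := fun h => hA ⟨A.nonempty, h⟩
  rw [isPreconnected_closed_iff] at h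
  push Not at h
  obtain ⟨s, t, hs, ht, h1, ⟨x, h2⟩, ⟨y, h3⟩, h4⟩ := h
  obtain ⟨U, V, hU, hV, u1, v1, uv⟩ := normal_separation (A.isCompact.isClosed.inter hs)
    (A.isCompact.isClosed.inter ht) (disjoint_left.2 fun z a b => h4.subset ⟨a.1, a.2, b.2⟩)
  refine ⟨{K | (K : Set X) ⊆ U ∪ V} ∩ ({K | ((K : Set X) ∩ U).Nonempty} ∩
    {K | ((K : Set X) ∩ V).Nonempty}), fun K hK h => ?_,
    (NonemptyCompacts.isOpen_subsets_of_isOpen (hU.union hV)).inter
      ((NonemptyCompacts.isOpen_inter_nonempty_of_isOpen hU).inter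
        (NonemptyCompacts.isOpen_inter_nonempty_of_isOpen hV)),
    fun z hz => (h1 hz).imp (fun h => u1 ⟨hz, h⟩) fun h => v1 ⟨hz, h⟩,
    ⟨x, h2.1, u1 h2⟩, y, h3.1, v1 h3⟩
  obtain ⟨z, -, hz⟩ := h.2 U V hU hV hK.1 hK.2.1 hK.2.2
  exact disjoint_left.1 uv hz.1 hz.2

lemma grow [ConnectedSpace X] {N : Set X} (h1 : IsClosed N) (h2 : IsConnected N) {r : X}
    (hr : r ∉ N) {ε : ℝ} (hε : 0 < ε) :
    ∃ D, IsClosed D ∧ IsConnected D ∧ N ⊆ D ∧ ¬ D ⊆ N ∧ D ⊆ cthickening ε N := by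
  obtain ⟨x, hx⟩ := h2.1
  have hW : IsClosed (cthickening ε N) := isClosed_cthickening
  have hN : N ⊆ cthickening ε N := self_subset_cthickening N
  have := isCompact_iff_compactSpace.1 hW.isCompact
  refine ⟨_, ?_, isConnected_connectedComponentIn_iff.2 (hN hx),
    h2.2.subset_connectedComponentIn hx hN, fun h => ?_, connectedComponentIn_subset _ _⟩
  · rw [connectedComponentIn_eq_image (hN hx)]
    exact hW.isClosedMap_subtype_val _ isClosed_connectedComponent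
  rw [connectedComponentIn_eq_image (hN hx), image_subset_iff,
    connectedComponent_eq_iInter_isClopen] at h
  have hO : IsOpen (thickening ε N ∩ {r}ᶜ) := isOpen_thickening.inter isOpen_compl_singleton
  have : Nonempty {s : Set (cthickening ε N) // IsClopen s ∧ ⟨x, hN hx⟩ ∈ s} :=
    ⟨⟨univ, isClopen_univ, trivial⟩⟩
  obtain ⟨⟨D, d1, d2⟩, d3⟩ := exists_subset_nhds_of_compactSpace (U := Subtype.val ⁻¹'
    (thickening ε N ∩ {r}ᶜ)) (V := fun s : {s : Set (cthickening ε N) // IsClopen s ∧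
      ⟨x, hN hx⟩ ∈ s} => s.1) (fun s t => ⟨⟨s.1 ∩ t.1, s.2.1.inter t.2.1, s.2.2, t.2.2⟩,
        inter_subset_left, inter_subset_right⟩) (fun s => s.2.1.1)
    fun z hz => (hO.preimage continuous_subtype_val).mem_nhds
      ⟨self_subset_thickening hε N (h hz), fun e => hr (e ▸ h hz)⟩
  obtain ⟨u, hu, rfl⟩ := isOpen_induced_iff.1 d1.2
  have e : Subtype.val '' (Subtype.val ⁻¹' u : Set (cthickening ε N)) = u ∩ thickening ε N :=
    Subset.antisymm (by rintro _ ⟨z, hz, rfl⟩; exact ⟨hz, (d3 hz).1⟩)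
      fun z hz => ⟨⟨z, thickening_subset_cthickening _ _ hz.2⟩, hz.1, rfl⟩
  have := IsClopen.eq_univ ⟨hW.isClosedMap_subtype_val _ d1.1, e ▸ hu.inter isOpen_thickening⟩
    ⟨x, _, d2, rfl⟩
  obtain ⟨z, hz, rfl⟩ := this.ge (mem_univ r)
  exact (d3 hz).2 rfl

lemma top [ConnectedSpace X] {M s t : Set (NonemptyCompacts X)} (hM : IsClosed M)
    (h1 : ∀ A ∈ M, IsConnected (A : Set X))
    (h2 : ∀ A ∈ M, ∀ B : NonemptyCompacts X, IsConnected (B : Set X) → A ≤ B → B ∈ M)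
    (hs : IsClosed s) (ht : IsClosed t) (h3 : M ⊆ s ∪ t) (h4 : ¬ (M ∩ (s ∩ t)).Nonempty)
    (h5 : (M ∩ s).Nonempty) : ⊤ ∈ M ∩ s := by
  obtain ⟨A, hA⟩ := h5
  obtain ⟨N, -, hN⟩ := zorn_le_nonempty₀ (M ∩ s) (fun c hc hc' y hy => by
    have : Nonempty c := ⟨⟨y, hy⟩⟩
    have : IsDirectedOrder c := hc'.directedOn.isDirectedOrder
    obtain ⟨B, b1, b2⟩ := (hM.inter hs).isCompact.exists_mapClusterPt (f := atTop)
      (u := (Subtype.val : c → _)) (tendsto_principal.2 (Eventually.of_forall fun z => hc z.2))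
    refine ⟨B, b1, fun z hz w hw => ?_⟩
    simpa using (NonemptyCompacts.isClosed_inter_nonempty_of_isClosed (isClosed_singleton
      (x := w))).mem_of_mapClusterPt b2 ((eventually_ge_atTop ⟨z, hz⟩).mono fun v hv =>
        ⟨w, hv hw, rfl⟩)) A hA
  by_contra hc
  obtain ⟨r, hr⟩ : ∃ r, r ∉ (N : Set X) := by
    by_contra! h
    exact hc ((top_le_iff (a := N)).1 (fun z _ => h z) ▸ hN.1)
  obtain ⟨ε, hε, he⟩ := nhds_basis_closedBall.mem_iff.1
    (ht.isOpen_compl.mem_nhds fun h => h4 ⟨N, hN.1.1, hN.1.2, h⟩)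
  obtain ⟨D, d1, d2, d3, d4, d5⟩ := grow N.isCompact.isClosed (h1 N hN.1.1) hr hε
  let B : NonemptyCompacts X := ⟨⟨D, d1.isCompact⟩, d2.1⟩
  have hB := h2 N hN.1.1 B d2 d3
  refine d4 (hN.2 (y := B) ⟨hB, (h3 hB).resolve_right (he ?_)⟩ d3)
  rw [mem_closedBall, dist_edist]
  exact ENNReal.toReal_le_of_le_ofReal hε.le (hausdorffEDist_le_of_infEDist
    (fun z hz => mem_cthickening_iff.1 (d5 hz))
    fun z hz => (infEDist_zero_of_mem (d3 hz)).le.trans zero_le)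

lemma conn [ConnectedSpace X] {M : Set (NonemptyCompacts X)} (hM : IsClosed M)
    (h1 : ∀ A ∈ M, IsConnected (A : Set X))
    (h2 : ∀ A ∈ M, ∀ B : NonemptyCompacts X, IsConnected (B : Set X) → A ≤ B → B ∈ M) :
    IsPreconnected M := isPreconnected_closed_iff.2 fun s t hs ht h3 h4 h5 => by
  by_contra h
  have a := top hM h1 h2 hs ht h3 h h4
  exact h ⟨⊤, a.1, a.2, (top hM h1 h2 ht hs (union_comm s t ▸ h3) (inter_comm s t ▸ h) h5).2⟩

end Pool.Agent.H.MP_53bf97_gt
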